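import Pool.Agent.W666.FrechetMod

/-!
# A Fréchet algebra without non-zero injective Fréchet modules
-/

set_option autoImplicit false

namespace Pool.Agent.Results.MP_5446c4_an.NoInjectives

open Pool.Agent.W666

universe u

/-- There is a (commutative) Fréchet algebra `A` such that no non-zero Fréchet `A`-module is
injective. The algebra is the algebra `z ℂ[[z]]` of the formal power series without constant term,
with the topology of coefficientwise convergence. -/
theorem result : ∃ (A : Type) (_ : NonUnitalCommRing A) (_ : Module ℂ A) (_ : UniformSpace A),
    IsFrechetAlgebra A ∧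
    ∀ (X : Type u) [AddCommGroup X] [Module ℂ X] [UniformSpace X] [IsFrechetSpace X]
      (m : LeftModule A X), IsInjective m → ∀ x : X, x = 0 :=
  ⟨ZSeries, inferInstance, inferInstance, inferInstance, inferInstance,
    fun _ _ _ _ _ m hm x => eq_zero_of_injective m hm x⟩

end Pool.Agent.Results.MP_5446c4_an.NoInjectives
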